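import Pool.Agent.Q185.RP6.Top
import Pool.Agent.Q185.RP6.Cpx
import Pool.Agent.Q185.RP6.Bridge

/-!
MP_b4345b_gt, Q1: a triangulation of real projective 6-space with 42 vertices.
-/

set_option autoImplicit false

namespace Pool.Agent.Results.MP_b4345b_gt.FortyTwoVertices

open Pool.Agent.Q185.RP6

/-- Full answer (YES) to Q1: there is a finite geometric simplicial complex with exactly 42 vertices
(so with at most 44) whose underlying space is homeomorphic to the 6-sphere with antipodal
points identified, i.e. to real projective 6-space. -/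
theorem result :
    ∃ n : ℕ, ∃ K : Geometry.SimplicialComplex ℝ (EuclideanSpace ℝ (Fin n)),
      K.faces.Finite ∧ K.vertices.ncard = 42 ∧
      Nonempty (Homeomorph (↥K.space)
        (Quot (fun x y : Metric.sphere (0 : EuclideanSpace ℝ (Fin 7)) 1 =>
          (x : EuclideanSpace ℝ (Fin 7)) = (y : EuclideanSpace ℝ (Fin 7)) ∨
          (x : EuclideanSpace ℝ (Fin 7)) = -(y : EuclideanSpace ℝ (Fin 7))))) := by
  haveI : Nonempty JJ := ⟨(⟨0, by rw [nJ_eq]; norm_num⟩, 0, 0)⟩
  haveI : Nontrivial (EuclideanSpace ℝ (Fin 7)) := by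
    apply Module.nontrivial_of_finrank_pos (R := ℝ)
    rw [finrank_euclideanSpace, Fintype.card_fin]; norm_num
  obtain ⟨K, hK, hf, hv⟩ := cpxL 42 JJ (EuclideanSpace ℝ (Fin 7)) theFan
  obtain ⟨h⟩ := quoL 42 JJ (EuclideanSpace ℝ (Fin 7)) theFan
  refine ⟨42, K, hf, hv, ?_⟩
  rw [hK]
  exact ⟨h⟩

end Pool.Agent.Results.MP_b4345b_gt.FortyTwoVertices
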